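import Mathlib

set_option autoImplicit false

/-!
# A lattice never has finite deficiency for STFT phase retrieval

Let `μ = (ξ, η) ≠ 0` be such that `ω ξ - η x` is an integer for all points `(x, ω)` of the lattice,
and let `e_k (t) = exp (2 π i k η t - π i k² η ξ) g (k ξ - t)`.  Then
`conj (V_g e_k (x, ω)) = exp (2 π i ω x) V_g e_k (x, ω)` on the lattice, so that
`f = e_0 + i ∑ b_k e_k` and `h = e_0 - i ∑ b_k e_k` have the same STFT magnitudes on the lattice for
all real `b_1, ..., b_{N + 1}`.  Having the same magnitudes at `N` further points amounts to `N`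
linear equations for `b`.  The `e_k` are linearly independent, since a time-frequency shift has no
eigenvector in `L²`.
-/

open MeasureTheory Complex Filter Topology

namespace Pool.Agent.Results.MP_19ca7b_an.NoFiniteDeficiency

/-- The short-time Fourier transform of `f` with the window `g` at `(x, ω)`. -/
noncomputable def V (g f : ℝ → ℂ) (x ω : ℝ) : ℂ :=
  ∫ t : ℝ, f t * (starRingEnd ℂ) (g (t - x)) * Complex.exp (-(2 * Real.pi * ω * t * I))

/-- The lattice `A ℤ²`. -/
def lattice (A : Matrix (Fin 2) (Fin 2) ℝ) : Set (ℝ × ℝ) :=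
  {p | ∃ m n : ℤ, p = (A 0 0 * m + A 0 1 * n, A 1 0 * m + A 1 1 * n)}

/-- The pair `(g, Λ)` has the phase retrieval uniqueness property. -/
def UniquenessProperty (g : ℝ → ℂ) (Λ : Set (ℝ × ℝ)) : Prop :=
  ∀ f h : ℝ → ℂ, MemLp f 2 volume → MemLp h 2 volume →
    (∀ p ∈ Λ, ‖V g f p.1 p.2‖ = ‖V g h p.1 p.2‖) →
    ∃ α : ℝ, f =ᵐ[volume] fun t => Complex.exp (α * I) * h t

/-! ### Time-frequency shifts have no eigenvectors -/

/-- The time-frequency shift by `(ξ, η)`. -/
noncomputable def T (ξ η : ℝ) : Module.End ℂ (ℝ → ℂ) where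
  toFun f := fun t => Complex.exp ((2 * Real.pi * η * t - Real.pi * η * ξ) * I) * f (t - ξ)
  map_add' f g := by
    ext t
    simp only [Pi.add_apply]
    ring
  map_smul' c f := by
    ext t
    simp only [Pi.smul_apply, smul_eq_mul, RingHom.id_apply]
    ring

theorem T_apply (ξ η : ℝ) (f : ℝ → ℂ) (t : ℝ) :
    T ξ η f t = Complex.exp ((2 * Real.pi * η * t - Real.pi * η * ξ) * I) * f (t - ξ) := rfl

theorem T_pow_apply (ξ η : ℝ) (f : ℝ → ℂ) (k : ℕ) (t : ℝ) :
    (T ξ η ^ k) f t =
      Complex.exp ((2 * Real.pi * (k * η) * t - Real.pi * k ^ 2 * (η * ξ)) * I) *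
        f (t - k * ξ) := by
  induction k generalizing t with
  | zero => simp
  | succ k ih =>
    rw [pow_succ', Module.End.mul_apply, T_apply, ih, ← mul_assoc, ← Complex.exp_add]
    congr 2
    · push_cast
      ring
    · push_cast
      ring

theorem T_memLp (ξ η : ℝ) (f : ℝ → ℂ) (hf : MemLp f 2 volume) :
    MemLp (T ξ η f) 2 volume := by
  have h1 : MemLp (fun t => f (t - ξ)) 2 volume :=
    hf.comp_measurePreserving (measurePreserving_sub_right volume ξ)
  have hc : Continuous fun t : ℝ =>
      Complex.exp ((2 * Real.pi * η * t - Real.pi * η * ξ) * I) := by fun_prop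
  refine h1.of_le (hc.aestronglyMeasurable.mul h1.1) (Eventually.of_forall fun t => ?_)
  rw [T_apply, norm_mul]
  have : ((2 * Real.pi * η * t - Real.pi * η * ξ : ℂ)) =
    ((2 * Real.pi * η * t - Real.pi * η * ξ : ℝ) : ℂ) := by push_cast; ring
  rw [this, Complex.norm_exp_ofReal_mul_I, one_mul]

theorem periodic_zero (Φ : ℝ → ℝ) (hΦ : Integrable Φ volume) (s : ℝ) (hs : 0 < s)
    (h : ∀ᵐ t, Φ (t + s) = Φ t) : ∫ t, Φ t = 0 := by
  have h1 : ∀ a b : ℝ, ∫ t in (a + s)..(b + s), Φ t = ∫ t in a..b, Φ t := by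
    intro a b
    rw [← intervalIntegral.integral_comp_add_right]
    apply intervalIntegral.integral_congr_ae
    filter_upwards [h] with t ht _ using ht
  have h2 : ∀ (n : ℕ) (a b : ℝ), ∫ t in (a + n * s)..(b + n * s), Φ t = ∫ t in a..b, Φ t := by
    intro n
    induction n with
    | zero => intro a b; simp
    | succ n ih =>
      intro a b
      rw [← ih a b, ← h1 (a + n * s) (b + n * s)]
      congr 1 <;> push_cast <;> ring
  have h3 : ∀ a b : ℝ, ∫ t in a..b, Φ t = 0 := by
    intro a b
    have hT : ∀ c : ℝ, Tendsto (fun n : ℕ => ∫ t in (0 : ℝ)..(c + n * s), Φ t) atTop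
        (𝓝 (∫ t in Set.Ioi (0 : ℝ), Φ t)) := by
      intro c
      apply intervalIntegral_tendsto_integral_Ioi _ hΦ.integrableOn
      apply tendsto_atTop_add_const_left
      exact tendsto_natCast_atTop_atTop.atTop_mul_const hs
    have hsub := (hT b).sub (hT a)
    rw [sub_self] at hsub
    have heq : ∀ n : ℕ, (∫ t in (0 : ℝ)..(b + n * s), Φ t) - (∫ t in (0 : ℝ)..(a + n * s), Φ t) =
        ∫ t in a..b, Φ t := by
      intro n
      rw [← h2 n a b, intervalIntegral.integral_interval_sub_left hΦ.intervalIntegrable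
        hΦ.intervalIntegrable]
    simp only [heq] at hsub
    exact tendsto_nhds_unique tendsto_const_nhds hsub
  have h4 : Tendsto (fun n : ℕ => ∫ t in (-(n : ℝ))..(n : ℝ), Φ t) atTop (𝓝 (∫ t, Φ t)) := by
    apply intervalIntegral_tendsto_integral hΦ
    · exact tendsto_neg_atTop_atBot.comp tendsto_natCast_atTop_atTop
    · exact tendsto_natCast_atTop_atTop
  simp only [h3] at h4
  exact (tendsto_nhds_unique tendsto_const_nhds h4).symm

theorem eigen_zero {ξ η : ℝ} (h0 : ξ ≠ 0 ∨ η ≠ 0) (F : ℝ → ℂ) (hF : MemLp F 2 volume) (l : ℂ)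
    (h : T ξ η F =ᵐ[volume] l • F) : F =ᵐ[volume] 0 := by
  by_cases hξ : ξ = 0
  · subst hξ
    have hη : η ≠ 0 := by simpa using h0
    have hcount : Set.Countable {t : ℝ | Complex.exp ((2 * Real.pi * η * t) * I) = l} := by
      by_cases hne : ∃ t0 : ℝ, Complex.exp ((2 * Real.pi * η * t0) * I) = l
      · obtain ⟨t0, ht0⟩ := hne
        apply (Set.countable_range fun n : ℤ => t0 + n / η).mono
        intro t ht
        rw [Set.mem_ofPred_eq, ← ht0, Complex.exp_eq_exp_iff_exists_int] at ht
        obtain ⟨n, hn⟩ := ht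
        refine ⟨n, ?_⟩
        have h1 : (2 * Real.pi * I : ℂ) ≠ 0 := by
          simp [Real.pi_ne_zero]
        have h2 : (η * t : ℂ) = η * t0 + n := by
          apply mul_left_cancel₀ h1
          linear_combination hn
        have h3 : η * t = η * t0 + n := by exact_mod_cast h2
        simp only
        field_simp
        linarith
      · have : {t : ℝ | Complex.exp ((2 * Real.pi * η * t) * I) = l} = ∅ := by
          ext t
          simp only [Set.mem_ofPred_eq, Set.mem_empty_iff_false, iff_false]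
          exact fun ht => hne ⟨t, ht⟩
        rw [this]
        exact Set.countable_empty
    filter_upwards [h, hcount.ae_notMem volume] with t ht hn
    rw [T_apply, Pi.smul_apply, smul_eq_mul] at ht
    simp only [ofReal_zero, mul_zero, sub_zero] at ht
    by_contra hFt
    exact hn (mul_right_cancel₀ hFt ht)
  · set Φ : ℝ → ℝ := fun t => ‖F t‖ ^ 2 with hΦdef
    have hΦ : Integrable Φ volume := hF.integrable_norm_pow (by norm_num)
    have hsh : ∀ᵐ t, Φ (t - ξ) = ‖l‖ ^ 2 * Φ t := by
      filter_upwards [h] with t ht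
      rw [T_apply, Pi.smul_apply, smul_eq_mul] at ht
      have h1 := congrArg (fun z => ‖z‖ ^ 2) ht
      have h2 : ((2 * Real.pi * η * t - Real.pi * η * ξ : ℂ)) =
        ((2 * Real.pi * η * t - Real.pi * η * ξ : ℝ) : ℂ) := by push_cast; ring
      simp only [norm_mul, h2, Complex.norm_exp_ofReal_mul_I, one_mul, mul_pow] at h1
      exact h1
    have hint : ∫ t, Φ t = ‖l‖ ^ 2 * ∫ t, Φ t := by
      rw [← integral_const_mul, ← integral_congr_ae hsh, integral_sub_right_eq_self]
    have hzero : ∫ t, Φ t = 0 := by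
      by_contra hne
      have hl : ‖l‖ ^ 2 = 1 := by
        have : (1 - ‖l‖ ^ 2) * ∫ t, Φ t = 0 := by linarith
        rcases mul_eq_zero.1 this with h | h
        · linarith
        · exact absurd h hne
      have hsh' : ∀ᵐ t, Φ (t - ξ) = Φ t := by
        filter_upwards [hsh] with t ht
        rw [ht, hl, one_mul]
      rcases lt_or_gt_of_ne hξ with hneg | hpos
      · exact hne (periodic_zero Φ hΦ (-ξ) (by linarith) (by simpa [sub_eq_add_neg] using hsh'))
      · apply hne (periodic_zero Φ hΦ ξ hpos _)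
        have := (measurePreserving_add_right volume ξ).quasiMeasurePreserving.ae hsh'
        filter_upwards [this] with t ht
        rw [add_sub_cancel_right] at ht
        exact ht.symm
    rw [integral_eq_zero_iff_of_nonneg (fun t => by positivity) hΦ] at hzero
    filter_upwards [hzero] with t ht
    simpa [hΦdef] using ht

theorem poly_zero {ξ η : ℝ} (h0 : ξ ≠ 0 ∨ η ≠ 0) (n : ℕ) :
    ∀ (p : Polynomial ℂ), p ≠ 0 → p.natDegree = n → ∀ F : ℝ → ℂ, MemLp F 2 volume →
      (Polynomial.aeval (T ξ η) p) F =ᵐ[volume] 0 → F =ᵐ[volume] 0 := by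
  have hmem : ∀ (p : Polynomial ℂ) (F : ℝ → ℂ), MemLp F 2 volume →
      MemLp ((Polynomial.aeval (T ξ η) p) F) 2 volume := by
    intro p F hF
    induction p using Polynomial.induction_on' with
    | add p q hp hq =>
      rw [map_add, LinearMap.add_apply]
      exact hp.add hq
    | monomial n a =>
      rw [Polynomial.aeval_monomial, Module.End.mul_apply, Module.algebraMap_end_apply]
      have : ∀ n : ℕ, MemLp ((T ξ η ^ n) F) 2 volume := by
        intro n
        induction n with
        | zero => simpa using hF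
        | succ n ih =>
          rw [pow_succ', Module.End.mul_apply]
          exact T_memLp ξ η _ ih
      exact (this n).const_smul a
  induction n with
  | zero =>
    intro p hp hd F hF h
    rw [Polynomial.natDegree_eq_zero] at hd
    obtain ⟨c, rfl⟩ := hd
    have hc : c ≠ 0 := fun h => hp (by rw [h, Polynomial.C_0])
    rw [Polynomial.aeval_C, Module.algebraMap_end_apply] at h
    filter_upwards [h] with t ht
    simpa [hc] using ht
  | succ n ih =>
    intro p hp hd F hF h
    have hdeg : p.degree ≠ 0 := by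
      rw [Polynomial.degree_eq_natDegree hp, hd]
      exact_mod_cast Nat.succ_ne_zero n
    obtain ⟨l, hl⟩ := IsAlgClosed.exists_root p hdeg
    obtain ⟨q, rfl⟩ := Polynomial.dvd_iff_isRoot.2 hl
    have hq : q ≠ 0 := right_ne_zero_of_mul hp
    have hqd : q.natDegree = n := by
      rw [Polynomial.natDegree_mul (Polynomial.X_sub_C_ne_zero l) hq,
        Polynomial.natDegree_X_sub_C] at hd
      omega
    apply ih q hq hqd F hF
    apply eigen_zero h0 _ (hmem q F hF) l
    rw [map_mul, Module.End.mul_apply, map_sub, Polynomial.aeval_X, Polynomial.aeval_C,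
      LinearMap.sub_apply, Module.algebraMap_end_apply] at h
    filter_upwards [h] with t ht
    exact sub_eq_zero.1 ht

/-! ### The STFT of the shifts of the reflected window -/

theorem V_integrable {g f : ℝ → ℂ} (hg : MemLp g 2 volume) (hf : MemLp f 2 volume) (x ω : ℝ) :
    Integrable (fun t => f t * (starRingEnd ℂ) (g (t - x)) *
      Complex.exp (-(2 * Real.pi * ω * t * I))) volume := by
  have h1 : MemLp (fun t => (starRingEnd ℂ) (g (t - x))) 2 volume :=
    (hg.comp_measurePreserving (measurePreserving_sub_right volume x)).star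
  have h2 : Integrable (fun t => f t * (starRingEnd ℂ) (g (t - x))) volume :=
    hf.integrable_mul h1
  have hc : Continuous fun t : ℝ => Complex.exp (-(2 * Real.pi * ω * t * I)) := by fun_prop
  apply h2.mul_bdd (c := 1) hc.aestronglyMeasurable
  refine Eventually.of_forall fun t => ?_
  have : (-(2 * Real.pi * ω * t * I) : ℂ) = ((-(2 * Real.pi * ω * t) : ℝ) : ℂ) * I := by
    push_cast; ring
  rw [this, Complex.norm_exp_ofReal_mul_I]

theorem V_add {g f h : ℝ → ℂ} (hg : MemLp g 2 volume) (hf : MemLp f 2 volume)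
    (hh : MemLp h 2 volume) (x ω : ℝ) : V g (f + h) x ω = V g f x ω + V g h x ω := by
  rw [V, V, V, ← integral_add (V_integrable hg hf x ω) (V_integrable hg hh x ω)]
  congr 1
  ext t
  simp only [Pi.add_apply]
  ring

theorem V_smul {g f : ℝ → ℂ} (c : ℂ) (x ω : ℝ) : V g (c • f) x ω = c * V g f x ω := by
  rw [V, V, ← integral_const_mul]
  congr 1
  ext t
  simp only [Pi.smul_apply, smul_eq_mul]
  ring

theorem V_sum {g : ℝ → ℂ} (hg : MemLp g 2 volume) {ι : Type} (s : Finset ι) (f : ι → ℝ → ℂ)
    (hf : ∀ i, MemLp (f i) 2 volume) (x ω : ℝ) :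
    V g (∑ i ∈ s, f i) x ω = ∑ i ∈ s, V g (f i) x ω := by
  classical
  induction s using Finset.induction_on with
  | empty => simp [V]
  | insert a s ha ih =>
    rw [Finset.sum_insert ha, Finset.sum_insert ha, V_add hg (hf a), ih]
    exact memLp_finsetSum' s fun i _ => hf i

/-- The functions `e_k`. -/
noncomputable def e (g : ℝ → ℂ) (ξ η : ℝ) (k : ℕ) : ℝ → ℂ := (T ξ η ^ k) fun t => g (-t)

theorem e_memLp {g : ℝ → ℂ} (hg : MemLp g 2 volume) (ξ η : ℝ) (k : ℕ) :
    MemLp (e g ξ η k) 2 volume := by
  induction k with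
  | zero => exact hg.comp_measurePreserving (Measure.measurePreserving_neg volume)
  | succ k ih =>
    rw [e, pow_succ', Module.End.mul_apply]
    exact T_memLp ξ η _ ih

theorem conj_V_e (g : ℝ → ℂ) (ξ η : ℝ) (k : ℕ) (x ω : ℝ) (m : ℤ) (hm : ω * ξ - η * x = m) :
    (starRingEnd ℂ) (V g (e g ξ η k) x ω) =
      Complex.exp (2 * Real.pi * ω * x * I) * V g (e g ξ η k) x ω := by
  have h1 : Complex.exp (2 * Real.pi * ω * x * I) =
      Complex.exp ((2 * Real.pi * (k * (ω * ξ - η * x)) + 2 * Real.pi * ω * x) * I) := by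
    rw [show (ω * ξ - η * x : ℂ) = m by exact_mod_cast hm, Complex.exp_eq_exp_iff_exists_int]
    exact ⟨-(k * m), by push_cast; ring⟩
  rw [h1, V, ← integral_const_mul, ← integral_conj, ← integral_sub_left_eq_self _ volume (k * ξ + x)]
  congr 1
  ext t
  simp only [e, T_pow_apply, map_mul, Complex.conj_conj, ← Complex.exp_conj, map_neg, map_sub,
    Complex.conj_I, Complex.conj_ofReal, map_pow, map_ofNat, map_natCast]
  have a1 : -(((k * ξ + x - t : ℝ)) - k * ξ) = t - x := by ring
  have a2 : (k * ξ + x - t - x : ℝ) = -(t - k * ξ) := by ring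
  rw [a1, a2]
  have key : Complex.exp ((2 * Real.pi * (k * η) * ((k * ξ + x - t : ℝ) : ℂ) -
        Real.pi * k ^ 2 * (η * ξ)) * -I) *
      Complex.exp (-(2 * Real.pi * ω * ((k * ξ + x - t : ℝ) : ℂ) * -I)) =
      Complex.exp ((2 * Real.pi * (k * (ω * ξ - η * x)) + 2 * Real.pi * ω * x) * I) *
        (Complex.exp ((2 * Real.pi * (k * η) * t - Real.pi * k ^ 2 * (η * ξ)) * I) *
          Complex.exp (-(2 * Real.pi * ω * t * I))) := by
    rw [← Complex.exp_add, ← Complex.exp_add, ← Complex.exp_add]
    congr 1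
    push_cast
    ring
  linear_combination ((starRingEnd ℂ) (g (t - x)) * g (-(t - k * ξ))) * key

/-- A lattice is contained in the set of the points for which the symplectic product with some
non-zero vector is an integer. -/
theorem exists_dual (A : Matrix (Fin 2) (Fin 2) ℝ) (hA : A.det ≠ 0) :
    ∃ ξ η : ℝ, (ξ ≠ 0 ∨ η ≠ 0) ∧ ∀ p ∈ lattice A, ∃ m : ℤ, p.2 * ξ - η * p.1 = m := by
  rw [Matrix.det_fin_two] at hA
  refine ⟨- A 0 1 / (A 0 0 * A 1 1 - A 0 1 * A 1 0), - A 1 1 / (A 0 0 * A 1 1 - A 0 1 * A 1 0),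
    ?_, ?_⟩
  · by_contra hcon
    push Not at hcon
    obtain ⟨h1, h2⟩ := hcon
    rw [div_eq_zero_iff] at h1 h2
    have h3 : A 0 1 = 0 := by
      rcases h1 with h1 | h1
      · linarith
      · exact absurd h1 hA
    have h4 : A 1 1 = 0 := by
      rcases h2 with h2 | h2
      · linarith
      · exact absurd h2 hA
    apply hA
    rw [h3, h4]
    ring
  · rintro p ⟨m, n, rfl⟩
    refine ⟨m, ?_⟩
    have h1 : (A 1 0 * m + A 1 1 * n) * (- A 0 1 / (A 0 0 * A 1 1 - A 0 1 * A 1 0)) -
        (- A 1 1 / (A 0 0 * A 1 1 - A 0 1 * A 1 0)) * (A 0 0 * m + A 0 1 * n) =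
        m * ((A 0 0 * A 1 1 - A 0 1 * A 1 0) / (A 0 0 * A 1 1 - A 0 1 * A 1 0)) := by ring
    rw [h1, div_self hA, mul_one]

/-- No lattice has finite deficiency: for every window `g ∈ L²(ℝ)`, every lattice `A ℤ²` and every
finite set `P`, the pair `(g, A ℤ² ∪ P)` does not have the uniqueness property. -/
theorem result (g : ℝ → ℂ) (hg : MemLp g 2 volume) (A : Matrix (Fin 2) (Fin 2) ℝ)
    (hA : A.det ≠ 0) (P : Set (ℝ × ℝ)) (hP : P.Finite) :
    ¬ UniquenessProperty g (lattice A ∪ P) := by
  classical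
  intro hU
  by_cases hg0 : g =ᵐ[volume] 0
  · -- the trivial case
    obtain ⟨α, hα⟩ := hU (Set.indicator (Set.Icc 0 1) fun _ => (1 : ℂ)) 0
      (memLp_indicator_const 2 measurableSet_Icc 1 (Or.inr (by simp))) MemLp.zero (by
        intro p _
        have : ∀ f : ℝ → ℂ, V g f p.1 p.2 = 0 := by
          intro f
          rw [V]
          apply integral_eq_zero_of_ae
          have h1 := (measurePreserving_sub_right volume p.1).quasiMeasurePreserving.ae hg0
          filter_upwards [h1] with t ht
          simp [ht]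
        rw [this, this])
    have h2 : (volume : Measure ℝ) (Set.Icc 0 1) = 0 := by
      rw [measure_eq_zero_iff_ae_notMem]
      filter_upwards [hα] with t ht hmem
      simp [Set.indicator_of_mem hmem] at ht
    simp at h2
  obtain ⟨ξ, η, h0, hL⟩ := exists_dual A hA
  set N := hP.toFinset.card with hN
  -- the linear equations
  let c : (Fin (N + 1)) → (ℝ × ℝ) → ℝ := fun k p =>
    (V g (e g ξ η 0) p.1 p.2 * (starRingEnd ℂ) (V g (e g ξ η (k + 1)) p.1 p.2)).im
  let Λ : (Fin (N + 1) → ℝ) →ₗ[ℝ] (hP.toFinset → ℝ) :=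
    { toFun := fun b p => ∑ k, b k * c k p
      map_add' := by
        intro b b'
        ext p
        simp only [Pi.add_apply, add_mul, Finset.sum_add_distrib]
      map_smul' := by
        intro r b
        ext p
        simp only [Pi.smul_apply, smul_eq_mul, mul_assoc, Finset.mul_sum, RingHom.id_apply] }
  have hker : LinearMap.ker Λ ≠ ⊥ := by
    apply LinearMap.ker_ne_bot_of_finrank_lt
    simp [hN]
  obtain ⟨b, hb, hb0⟩ := Submodule.exists_mem_ne_zero_of_ne_bot hker
  have hbP : ∀ p ∈ P, ∑ k, b k * c k p = 0 := by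
    intro p hp
    have h1 := congrFun (LinearMap.mem_ker.1 hb) ⟨p, hP.mem_toFinset.2 hp⟩
    exact h1
  set F : ℝ → ℂ := ∑ k : Fin (N + 1), (b k : ℂ) • e g ξ η (k + 1) with hF
  have he := e_memLp hg ξ η
  have hFm : MemLp F 2 volume := memLp_finsetSum' _ fun k _ => (he _).const_smul _
  have hVF : ∀ x ω, V g F x ω = ∑ k : Fin (N + 1), (b k : ℂ) * V g (e g ξ η (k + 1)) x ω := by
    intro x ω
    rw [hF, V_sum hg _ _ (fun k => (he _).const_smul _)]
    exact Finset.sum_congr rfl fun k _ => V_smul _ _ _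
  have hVf : ∀ (z : ℂ) x ω, V g (e g ξ η 0 + z • F) x ω = V g (e g ξ η 0) x ω + z * V g F x ω := by
    intro z x ω
    rw [V_add hg (he 0) (hFm.const_smul z), V_smul]
  -- the magnitudes agree as soon as an imaginary part vanishes
  have hkey : ∀ x ω, (V g (e g ξ η 0) x ω * (starRingEnd ℂ) (V g F x ω)).im = 0 →
      ‖V g (e g ξ η 0 + I • F) x ω‖ = ‖V g (e g ξ η 0 + (-I) • F) x ω‖ := by
    intro x ω h
    rw [hVf, hVf]
    generalize V g (e g ξ η 0) x ω = z at h
    generalize V g F x ω = w at h
    rw [← sq_eq_sq₀ (norm_nonneg _) (norm_nonneg _), ← Complex.normSq_eq_norm_sq,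
      ← Complex.normSq_eq_norm_sq, Complex.normSq_apply, Complex.normSq_apply]
    simp at h ⊢
    linarith
  obtain ⟨α, hα⟩ := hU (e g ξ η 0 + I • F) (e g ξ η 0 + (-I) • F)
    ((he 0).add (hFm.const_smul _)) ((he 0).add (hFm.const_smul _)) (by
      intro p hp
      apply hkey
      rcases hp with hp | hp
      · obtain ⟨m, hm⟩ := hL p hp
        have h1 : (starRingEnd ℂ) (V g F p.1 p.2) =
            Complex.exp (2 * Real.pi * p.2 * p.1 * I) * V g F p.1 p.2 := by
          rw [hVF, map_sum, Finset.mul_sum]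
          apply Finset.sum_congr rfl
          intro k _
          rw [map_mul, Complex.conj_ofReal, conj_V_e g ξ η _ _ _ m hm]
          ring
        rw [← Complex.conj_eq_iff_im, map_mul, Complex.conj_conj, conj_V_e g ξ η 0 _ _ m hm, h1]
        ring
      · rw [hVF, map_sum, Finset.mul_sum, Complex.im_sum]
        rw [← hbP p hp]
        apply Finset.sum_congr rfl
        intro k _
        rw [map_mul, Complex.conj_ofReal, mul_left_comm, Complex.im_ofReal_mul])
  -- a linear dependence
  set a : ℂ := Complex.exp (α * I) with ha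
  let q : Polynomial ℂ := Polynomial.C (1 - a) +
    ∑ k : Fin (N + 1), Polynomial.C (I * (1 + a) * b k) * Polynomial.X ^ ((k : ℕ) + 1)
  have hcoeff0 : q.coeff 0 = 1 - a := by
    simp only [q, Polynomial.coeff_add, Polynomial.coeff_C_zero, Polynomial.finsetSum_coeff,
      Polynomial.coeff_C_mul_X_pow]
    simp
  have hcoeff : ∀ k : Fin (N + 1), q.coeff (k + 1) = I * (1 + a) * b k := by
    intro k
    simp only [q, Polynomial.coeff_add, Polynomial.finsetSum_coeff,
      Polynomial.coeff_C_mul_X_pow]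
    rw [Polynomial.coeff_C_of_ne_zero (by omega), zero_add, Finset.sum_eq_single k]
    · simp
    · intro j _ hj
      rw [if_neg]
      intro h
      exact hj (Fin.ext (by omega))
    · simp
  have hq : q ≠ 0 := by
    intro h
    have h1 : 1 - a = 0 := by rw [← hcoeff0, h, Polynomial.coeff_zero]
    have h2 : a = 1 := by linear_combination -h1
    apply hb0
    ext k
    have h3 := hcoeff k
    rw [h, Polynomial.coeff_zero, h2] at h3
    have h4 : (b k : ℂ) = 0 := by
      have h5 : I * (1 + 1) ≠ 0 := by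
        simp
      exact (mul_eq_zero.1 h3.symm).resolve_left h5
    exact_mod_cast h4
  have hae : (Polynomial.aeval (T ξ η) q) (fun t => g (-t)) = (1 - a) • e g ξ η 0 +
      (I * (1 + a)) • F := by
    simp only [q, map_add, map_sum, LinearMap.add_apply, LinearMap.sum_apply, Polynomial.aeval_C,
      map_mul, map_pow, Polynomial.aeval_X, Module.End.mul_apply, Module.algebraMap_end_apply]
    congr 1
    rw [hF, Finset.smul_sum]
    apply Finset.sum_congr rfl
    intro k _
    ext t
    simp only [e, Pi.add_apply, Pi.smul_apply, smul_eq_mul]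
    ring
  have hgm : MemLp (fun t => g (-t)) 2 volume := e_memLp hg ξ η 0
  have hfin := poly_zero h0 _ q hq rfl _ hgm (by
    rw [hae]
    filter_upwards [hα] with t ht
    simp only [Pi.add_apply, Pi.smul_apply, smul_eq_mul, Pi.zero_apply] at ht ⊢
    linear_combination ht)
  apply hg0
  have := (Measure.measurePreserving_neg (volume : Measure ℝ)).quasiMeasurePreserving.ae hfin
  filter_upwards [this] with t ht
  simpa using ht

end Pool.Agent.Results.MP_19ca7b_an.NoFiniteDeficiency
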